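import Pool.Agent.Helper89.Vol5.Goals

/-! # MP_cd13d2_co, project V58, packet P222 -/

set_option autoImplicit false

namespace Pool.Agent.Helper57.Vol5.PkP222

open MeasureTheory Set Pool.Agent.Helper86.Poly Pool.Agent.Helper89.Vol5

/-- The norm in coordinates. -/
lemma nsq (u : E 5) : ‖u‖ ^ 2 = u 0 ^ 2 + u 1 ^ 2 + u 2 ^ 2 + u 3 ^ 2 + u 4 ^ 2 := by
  have h2 := EuclideanSpace.norm_sq_eq u
  rw [Fin.sum_univ_five] at h2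
  simpa only [Real.norm_eq_abs, sq_abs] using h2

/-- Distances in coordinates. -/
lemma coord (u v : E 5) (h : ‖u - v‖ ≤ 1) :
    (u 0 - v 0) ^ 2 + (u 1 - v 1) ^ 2 + (u 2 - v 2) ^ 2 + (u 3 - v 3) ^ 2 + (u 4 - v 4) ^ 2 ≤
      1 := by
  have h2 := nsq (u - v)
  simp only [PiLp.sub_apply] at h2
  have h3 : ‖u - v‖ ^ 2 ≤ 1 := by
    have := norm_nonneg (u - v)
    nlinarith
  rw [h2] at h3
  exact h3

/-- One point and the ends of a segment which is orthogonal to the plane. -/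
lemma pt_seg (p s t : E 5) (h0 : (t - s) 0 = 0) (h1 : (t - s) 1 = 0) (ha : ‖p - s‖ ≤ 1)
    (hb : ‖p - t‖ ≤ 1) :
    (p 0 - s 0) ^ 2 + (p 1 - s 1) ^ 2 ≤ 1 - ‖t - s‖ ^ 2 / 4 := by
  have a1 := coord p s ha
  have b1 := coord p t hb
  rw [nsq, h0, h1]
  simp only [PiLp.sub_apply] at h0 h1 ⊢
  rw [sub_eq_zero.1 h0, sub_eq_zero.1 h1] at b1
  linarith [sq_nonneg (2 * (p 2 - s 2) - (t 2 - s 2)), sq_nonneg (2 * (p 3 - s 3) - (t 3 - s 3)),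
    sq_nonneg (2 * (p 4 - s 4) - (t 4 - s 4))]

/-- The ends of two segments which are orthogonal to the plane. -/
lemma seg_seg (p q s t : E 5) (g0 : (q - p) 0 = 0) (g1 : (q - p) 1 = 0) (h0 : (t - s) 0 = 0)
    (h1 : (t - s) 1 = 0) (ha : ‖p - s‖ ≤ 1) (hb : ‖p - t‖ ≤ 1) (hc : ‖q - s‖ ≤ 1)
    (hd : ‖q - t‖ ≤ 1) :
    (p 0 - s 0) ^ 2 + (p 1 - s 1) ^ 2 ≤ 1 - (‖q - p‖ ^ 2 + ‖t - s‖ ^ 2) / 4 := by
  have a1 := coord p s ha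
  have b1 := coord p t hb
  have c1 := coord q s hc
  have d1 := coord q t hd
  rw [nsq (q - p), nsq (t - s), g0, g1, h0, h1]
  simp only [PiLp.sub_apply] at g0 g1 h0 h1 ⊢
  rw [sub_eq_zero.1 h0, sub_eq_zero.1 h1] at b1
  rw [sub_eq_zero.1 g0, sub_eq_zero.1 g1] at c1
  rw [sub_eq_zero.1 g0, sub_eq_zero.1 g1, sub_eq_zero.1 h0, sub_eq_zero.1 h1] at d1
  linarith [sq_nonneg (p 2 + q 2 - s 2 - t 2), sq_nonneg (p 3 + q 3 - s 3 - t 3),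
    sq_nonneg (p 4 + q 4 - s 4 - t 4)]

theorem thm (h : G_Q222) (hF : G_FRM5) (hA : G_AX) : G_P222 := by
  intro C hC y hy
  obtain ⟨L, ε, hε, hdt, he0, he1, hf0, hf1, hg0, hg1, hn1, hn0⟩ :=
    hF (y 1 - y 0) (y 3 - y 2) (y 5 - y 4) (y 7 - y 6)
  obtain ⟨Δ, hΔ, hb1, -, -⟩ := hA (L (y 1 - y 0)) (L (y 3 - y 2)) (L (y 5 - y 4))
    he0 he1 hf0 hf1 hg0 hg1
  obtain ⟨x, hx⟩ : ∃ x : Fin 8 → E 5, ∀ k, x k = L (y k - y 0) := ⟨_, fun _ => rfl⟩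
  have hsub : ∀ i j, x i - x j = L (y i - y j) := by
    intro i j
    rw [hx, hx, ← map_sub]
    congr 1
    abel
  have hd : ∀ i j, ‖x i - x j‖ ≤ 1 := by
    intro i j
    rw [hsub, LinearIsometryEquiv.norm_map, ← dist_eq_norm]
    exact hy i j
  have hx0 : ∀ m : Fin 5, x 0 m = 0 := by
    intro m
    rw [hx]
    simp
  have hB : ∀ p q : E 5, ε * dt (y 1 - y 0) (y 3 - y 2) (y 5 - y 4) p q =
      Δ * (L p 0 * L q 1 - L p 1 * L q 0) := by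
    intro p q
    rw [← hdt, hΔ]
  rw [← hsub] at he0 he1 hf0 hf1 hg0 hg1 hn1 hn0
  rw [← hsub 1 0, ← hsub 3 2, ← hsub 5 4] at hb1
  have g2 : x 7 1 = x 6 1 := by
    rw [PiLp.sub_apply] at hn1
    exact sub_eq_zero.1 hn1
  have g3 : x 6 0 ≤ x 7 0 := by
    rw [PiLp.sub_apply] at hn0
    exact sub_nonneg.1 hn0
  have hP : ε * q222 y = Δ * ((x 2 0 * x 4 1 - x 2 1 * x 4 0) + (x 4 0 * x 6 1 - x 4 1 * x 6 0) +
      (x 6 0 * x 6 1 - x 6 1 * x 7 0)) := by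
    have : ε * q222 y = ε * dt (y 1 - y 0) (y 3 - y 2) (y 5 - y 4) (y 2 - y 0) (y 4 - y 0) +
        ε * dt (y 1 - y 0) (y 3 - y 2) (y 5 - y 4) (y 4 - y 0) (y 6 - y 0) +
        ε * dt (y 1 - y 0) (y 3 - y 2) (y 5 - y 4) (y 6 - y 0) (y 7 - y 0) := by
      unfold q222
      ring
    rw [this, hB, hB, hB, ← hx 2, ← hx 4, ← hx 6, ← hx 7, g2]
    ring
  have hab : |q222 y| = |ε * q222 y| := by
    rcases hε with rfl | rfl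
    · rw [one_mul]
    · rw [neg_one_mul, abs_neg]
  -- the distances
  have A : ∀ k, x k 0 ^ 2 + x k 1 ^ 2 ≤ 1 - ‖x 1 - x 0‖ ^ 2 / 4 := by
    intro k
    have := pt_seg (x k) (x 0) (x 1) he0 he1 (hd k 0) (hd k 1)
    rwa [hx0, hx0, sub_zero, sub_zero] at this
  have B : ∀ k, (x k 0 - x 2 0) ^ 2 + (x k 1 - x 2 1) ^ 2 ≤ 1 - ‖x 3 - x 2‖ ^ 2 / 4 := fun k =>
    pt_seg (x k) (x 2) (x 3) hf0 hf1 (hd k 2) (hd k 3)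
  have D : ∀ k, (x k 0 - x 4 0) ^ 2 + (x k 1 - x 4 1) ^ 2 ≤ 1 - ‖x 5 - x 4‖ ^ 2 / 4 := fun k =>
    pt_seg (x k) (x 4) (x 5) hg0 hg1 (hd k 4) (hd k 5)
  have AB : x 2 0 ^ 2 + x 2 1 ^ 2 ≤ 1 - (‖x 1 - x 0‖ ^ 2 + ‖x 3 - x 2‖ ^ 2) / 4 := by
    have := seg_seg (x 2) (x 3) (x 0) (x 1) hf0 hf1 he0 he1 (hd 2 0) (hd 2 1) (hd 3 0) (hd 3 1)
    rw [hx0, hx0, sub_zero, sub_zero] at this
    linarith
  have AD : x 4 0 ^ 2 + x 4 1 ^ 2 ≤ 1 - (‖x 1 - x 0‖ ^ 2 + ‖x 5 - x 4‖ ^ 2) / 4 := by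
    have := seg_seg (x 4) (x 5) (x 0) (x 1) hg0 hg1 he0 he1 (hd 4 0) (hd 4 1) (hd 5 0) (hd 5 1)
    rw [hx0, hx0, sub_zero, sub_zero] at this
    linarith
  have BD : (x 2 0 - x 4 0) ^ 2 + (x 2 1 - x 4 1) ^ 2 ≤
      1 - (‖x 3 - x 2‖ ^ 2 + ‖x 5 - x 4‖ ^ 2) / 4 :=
    seg_seg (x 2) (x 3) (x 4) (x 5) hf0 hf1 hg0 hg1 (hd 2 4) (hd 2 5) (hd 3 4) (hd 3 5)
  have hwu : (x 7 0 - x 6 0) ^ 2 ≤ 1 := by
    have := coord (x 7) (x 6) (hd 7 6)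
    linarith [sq_nonneg (x 7 1 - x 6 1), sq_nonneg (x 7 2 - x 6 2), sq_nonneg (x 7 3 - x 6 3),
      sq_nonneg (x 7 4 - x 6 4)]
  have A7 := A 7
  have B7 := B 7
  have D7 := D 7
  rw [g2] at A7 B7 D7
  have hfin := h C hC ‖x 1 - x 0‖ ‖x 3 - x 2‖ ‖x 5 - x 4‖ (x 2 0) (x 2 1) (x 4 0) (x 4 1) (x 6 0)
    (x 6 1) (x 7 0) (norm_nonneg _) (hd 1 0) (norm_nonneg _) (hd 3 2) (norm_nonneg _) (hd 5 4) g3
    AB AD BD (A 6) A7 (B 6) B7 (D 6) D7 hwu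
  rw [hab, hP, abs_mul]
  refine le_trans ?_ hfin
  exact mul_le_mul_of_nonneg_left (mul_le_mul_of_nonneg_right hb1 (abs_nonneg _)) zero_le_two

end Pool.Agent.Helper57.Vol5.PkP222
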